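import Pool.Agent.MP_a88b1d_nt.H42.Spec

/-! Row COB: a coboundary modulo 3 pairs to zero modulo 3 with every loop. -/

open Polynomial

noncomputable section

namespace Pool.Agent.MP_a88b1d_nt.H18

open Pool.Agent.MP_a88b1d_nt.H42

variable {C : Type} [NontriviallyNormedField C] [Algebra (ZMod 2) C]

theorem vv_zero {T : C} (hm : PM T) : vv T 0 = 1 := by
  unfold vv
  rw [← hm.one, pow_zero, Matrix.one_fin_two]

theorem dd_WW {T : C} (hm : PM T) : dd T (rG T WW) 1 = 0 := by
  rw [hm.rg, ← hm.one]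
  have hW : (WW.1 : M2 A) = !![0, 1; 1, 0] := rfl
  apply hm.zero
  · rw [hW, Matrix.det_fin_two_of]; simp
  · simp
  · intro i j
    rw [hW, mul_one, Matrix.adjugate_fin_two_of]
    fin_cases i <;> fin_cases j <;> simp

theorem dd_UU {T : C} (hm : PM T) (b : A) (i : ℕ) (hi : b.natDegree ≤ i) :
    dd T (rG T (UU b) * vv T i) (vv T i) = 0 := by
  have hU : ((UU b).1 : M2 A) = !![1, b; 0, 1] := rfl
  have hX : (X ^ i : A) ≠ 0 := pow_ne_zero _ X_ne_zero
  have hd1 : (!![X ^ i, 0; 0, 1] : M2 A).det = X ^ i := by rw [Matrix.det_fin_two_of]; simp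
  have hd2 : (!![X ^ i, b; 0, 1] : M2 A).det = X ^ i := by rw [Matrix.det_fin_two_of]; simp
  have hd3 : (!![1, b; 0, 1] : M2 A).det = 1 := by rw [Matrix.det_fin_two_of]; simp
  have hmul : (!![1, b; 0, 1] : M2 A) * !![X ^ i, 0; 0, 1] = !![X ^ i, b; 0, 1] := by
    rw [Matrix.mul_fin_two]; simp
  unfold vv
  rw [hm.rg, hU, ← hm.mul _ _ (by rw [hd3]; exact one_ne_zero) (by rw [hd1]; exact hX), hmul]
  apply hm.zero
  · rw [hd2]; exact hX
  · rw [hd1]; exact hX
  · intro j k
    rw [hd1, hd2, Matrix.adjugate_fin_two_of, Matrix.mul_fin_two, natDegree_X_pow]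
    fin_cases j <;> fin_cases k <;> simp <;> omega

theorem cob (T : C) (hT : 1 < ‖T‖) (hg : GEN) (hp : PA) (ht : TREE T) (hm : PM T) (hq : PT) :
    COB T := by
  intro μ f hrel hcob a
  obtain ⟨F, hF1, hF2, hF3⟩ := hcob
  have api := hp (MK T) (dd T) (st T) (Gam0 (pp * qq)) (r0 T (pp * qq)) ht.tree (hm.good0 _).2
  set Ψ : MK T → MK T → ℤ := fun x y =>
    Psi (dd T) (r0 T (pp * qq)) x y 1 (r0 T (pp * qq) μ) with hΨ
  have hself : ∀ x, Ψ x x = 0 := fun x => api.self x _ _
  have hcoc : ∀ x y z, Ψ x y + Ψ y z = Ψ x z := fun x y z => api.coc x y z _ _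
  have hcongr : ∀ x y y', dd T y y' = 0 → Ψ x y = Ψ x y' := fun x y y' h =>
    api.congr x y _ _ x y' _ _ (ht.tree.self _) h (ht.tree.self _) (ht.tree.self _)
  have hanti : ∀ x y, Ψ y x = - Ψ x y := fun x y => api.anti x y _ _
  have tele : ∀ i P g, IsPt P g →
      ((Ψ (rG T g) (rG T g * vv T i) : ℤ) : ZMod 3) = F i P - F 0 P := by
    intro i P g hP
    induction i with
    | zero => rw [vv_zero hm, mul_one, hself]; simp
    | succ i ih =>
      have h1 : f i P = Ψ (rG T g * vv T i) (rG T g * vv T (i + 1)) := hrel i P g hP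
      rw [← hcoc _ (rG T g * vv T i), Int.cast_add, ih, ← h1, hF1 i P (hq.valid P g hP)]
      ring
  obtain ⟨P1, hP1⟩ := hq.ex 1
  have key : ∀ g, ∀ P, IsPt P g → ((Ψ 1 (rG T g) : ℤ) : ZMod 3) = F 0 P - F 0 P1 := by
    apply hg
    · intro P hP
      rw [map_one, hself, hq.uniq P P1 1 hP hP1]; simp
    · intro g ih P' hP'
      obtain ⟨P, hP⟩ := hq.ex g
      have e : P' = wP P := hq.uniq _ _ _ hP' (hq.actW P g hP)
      have h0 : dd T (rG T (g * WW)) (rG T g) = 0 := by
        have := ht.tree.inv (rG T g) (rG T WW) 1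
        rw [mul_one] at this
        rw [map_mul, this, dd_WW hm]
      rw [hcongr _ _ _ h0, ih P hP, e, hF3 P (hq.valid P g hP)]
    · intro g b ih P' hP'
      obtain ⟨P, hP⟩ := hq.ex g
      have e : F b.natDegree P' = F b.natDegree P :=
        hq.gen (ZMod 3) (F b.natDegree) b.natDegree b (fun k Q h1 h2 h3 => hF2 _ k Q h1 h2 h3)
          (Or.inr le_rfl) P P' g hP hP'
      have h0 : dd T (rG T (g * UU b) * vv T b.natDegree) (rG T g * vv T b.natDegree) = 0 := by
        rw [map_mul, mul_assoc, ht.tree.inv, dd_UU hm b _ le_rfl]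
      have t1 := tele b.natDegree P g hP
      have t2 := tele b.natDegree P' (g * UU b) hP'
      rw [hcongr _ _ _ h0] at t2
      rw [← hcoc 1 (rG T g) (rG T (g * UU b)), ← hcoc (rG T g) (rG T g * vv T b.natDegree),
        hanti (rG T (g * UU b)) (rG T g * vv T b.natDegree)]
      push_cast
      rw [ih P hP, t1, t2, e]
      ring
  have ha : IsPt P1 a.1 := by
    have := hq.left P1 1 a.1 a.2 hP1
    rwa [mul_one] at this
  have h := key a.1 P1 ha
  rw [sub_self] at h
  exact (ZMod.intCast_zmod_eq_zero_iff_dvd _ 3).1 h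

end Pool.Agent.MP_a88b1d_nt.H18
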